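import Pool.Agent.H96.AL.Targets3

open Topology Set Filter Real

namespace Pool.Agent.H95.AL

open Pool.Agent.H96.AL

theorem cosh_convex_ineq (a b : ℝ) : cosh a + sinh a * (b - a) ≤ cosh b := by
  have h1 : b - a + 1 ≤ exp (b - a) := add_one_le_exp _
  have h2 : -(b - a) + 1 ≤ exp (-(b - a)) := add_one_le_exp _
  have h3 : exp a * exp (b - a) = exp b := by rw [← exp_add]; ring_nf
  have h4 : exp (-a) * exp (-(b - a)) = exp (-b) := by rw [← exp_add]; ring_nf
  have h5 : exp a * (b - a + 1) ≤ exp b := by
    rw [← h3]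
    exact mul_le_mul_of_nonneg_left h1 (exp_pos a).le
  have h6 : exp (-a) * (-(b - a) + 1) ≤ exp (-b) := by
    rw [← h4]
    exact mul_le_mul_of_nonneg_left h2 (exp_pos (-a)).le
  rw [cosh_eq, sinh_eq, cosh_eq b]
  linarith

theorem ms (hEL : T_EL) : T_MS := by
  intro X _ D R hSp hR
  have hD1 : 1 ≤ D := hSp.one_le
  have hsR : 0 < sinh R := sinh_pos_iff.2 hR
  have hcD : 1 ≤ cosh D := one_le_cosh D
  refine ⟨cosh D / sinh R * (cosh D / 2), by positivity, ?_⟩
  set C : ℝ := cosh D / sinh R * (cosh D / 2) with hC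
  have hC0 : 0 < C := by rw [hC]; positivity
  intro l
  induction l with
  | nil =>
    intro z s hs _
    refine ⟨z, by simp, fun p' η _ => ?_⟩
    simp
  | cons y l ih =>
    intro z s hs hl
    set n : ℝ := (l.length : ℝ) with hn
    have hn0 : 0 ≤ n := Nat.cast_nonneg _
    have hlen : (((y :: l).length : ℕ) : ℝ) = n + 1 := by
      rw [List.length_cons]
      push_cast
      rfl
    rw [hlen] at hl ⊢
    have hell : R + s * (n + 1) ≤ dist z y := hl y List.mem_cons_self
    have hs1 : s ≤ dist z y := by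
      have h1 : 0 ≤ s * n := mul_nonneg hs.le hn0
      linarith
    obtain ⟨γ, hγ0, hγ1, hγ⟩ := hSp.geo z y
    set ell : ℝ := dist z y with hell'
    have hell0 : 0 < ell := by linarith
    set z1 : X := γ s with hz1
    have hzz1 : dist z z1 = s := by
      have h1 := hγ 0 ⟨le_rfl, hell0.le⟩ s ⟨hs.le, hs1⟩
      rw [hγ0] at h1
      rw [hz1, h1, zero_sub, abs_neg, abs_of_pos hs]
    have hz1y : dist z1 y = ell - s := by
      have h1 := hγ s ⟨hs.le, hs1⟩ ell ⟨hell0.le, le_rfl⟩
      rw [hγ1] at h1
      rw [hz1, h1, abs_sub_comm, abs_of_nonneg (by linarith)]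
    obtain ⟨z', hz', hpz'⟩ := ih z1 s hs (by
      intro y' hy'
      have h1 := hl y' (List.mem_cons_of_mem _ hy')
      have h2 := dist_triangle z z1 y'
      rw [hzz1] at h2
      linarith)
    have hzz' : dist z z' ≤ s * (n + 1) := by
      have h2 := dist_triangle z z1 z'
      rw [hzz1] at h2
      linarith
    refine ⟨z', hzz', fun p' η hη => ?_⟩
    have hη0 : 0 ≤ η := dist_nonneg.trans hη
    have hIH := hpz' p' η hη
    set d : ℝ := dist p' z with hd
    set b : ℝ := dist p' y with hb
    have hd0 : 0 ≤ d := dist_nonneg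
    have hdD : d ≤ D := hSp.diam _ _
    have hdη : d ≤ η + s * (n + 1) := by
      have h2 := dist_triangle p' z' z
      rw [dist_comm z' z] at h2
      linarith
    have hcb := hSp.cb p' z y z1 (by
      unfold Pool.Agent.H96.AL.Btw
      rw [hzz1, hz1y]
      ring)
    rw [hzz1, hz1y, ← hell', ← hd, ← hb, sinh_sub] at hcb
    have hsh : 0 < sinh s := sinh_pos_iff.2 hs
    have hshell : 0 < sinh ell := sinh_pos_iff.2 hell0
    have hconv := cosh_convex_ineq ell b
    obtain ⟨-, -, -, hel4, -⟩ := hEL D d hd0 hdD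
    have hcs : 1 ≤ cosh s := one_le_cosh s
    have hcd : 1 ≤ cosh d := one_le_cosh d
    -- the ratio
    have hratio : cosh ell * (cosh d - 1) ≤ sinh ell * (C * d ^ 2) := by
      have h1 : cosh ell ≤ cosh D := by
        rw [cosh_le_cosh, abs_of_pos hell0, abs_of_pos (by linarith)]
        exact hSp.diam _ _
      have h2 : sinh R ≤ sinh ell := sinh_le_sinh.2 (by
        have h1 : 0 ≤ s * n := mul_nonneg hs.le hn0
        linarith)
      calc cosh ell * (cosh d - 1) ≤ cosh D * (d ^ 2 / 2 * cosh D) :=
            mul_le_mul h1 hel4 (by linarith) (by positivity)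
        _ = sinh R * (C * d ^ 2) := by
            rw [hC]
            field_simp
        _ ≤ sinh ell * (C * d ^ 2) := mul_le_mul_of_nonneg_right h2 (by positivity)
    -- the main step
    have hmain : cosh d + sinh s * ((b - ell) - C * d ^ 2) ≤ cosh (dist p' z1) := by
      have h1 : sinh ell * (cosh d + sinh s * ((b - ell) - C * d ^ 2)) ≤
          sinh ell * cosh (dist p' z1) := by
        refine le_trans ?_ hcb
        have h2 : sinh ell * cosh d ≤ sinh ell * cosh s * cosh d := by
          have : sinh ell * 1 * cosh d ≤ sinh ell * cosh s * cosh d := by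
            gcongr
          linarith
        have h3 : sinh s * (cosh ell + sinh ell * (b - ell)) ≤ sinh s * cosh b :=
          mul_le_mul_of_nonneg_left hconv hsh.le
        have h4 : sinh s * (cosh ell * (cosh d - 1)) ≤ sinh s * (sinh ell * (C * d ^ 2)) :=
          mul_le_mul_of_nonneg_left hratio hsh.le
        linarith
      exact le_of_mul_le_mul_left h1 hshell
    -- combine
    rw [List.map_cons, List.sum_cons, ← hb]
    set S : ℝ := (l.map (fun y => dist p' y - dist z' y)).sum with hS
    have htri : ell ≤ s * (n + 1) + dist z' y := by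
      have := dist_triangle z z' y
      linarith
    have h1 : d ^ 2 ≤ (η + s * (n + 1)) ^ 2 := pow_le_pow_left₀ hd0 hdη 2
    have hsn : s * n ≤ s * (n + 1) := mul_le_mul_of_nonneg_left (by linarith) hs.le
    have h2 : (η + s * n) ^ 2 ≤ (η + s * (n + 1)) ^ 2 :=
      pow_le_pow_left₀ (by positivity) (by linarith) 2
    have h3 : n * (s * n + C * (η + s * n) ^ 2) ≤ n * (s * (n + 1) + C * (η + s * (n + 1)) ^ 2) := by
      exact mul_le_mul_of_nonneg_left
        (add_le_add hsn (mul_le_mul_of_nonneg_left h2 hC0.le)) hn0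
    have h4 : C * d ^ 2 ≤ C * (η + s * (n + 1)) ^ 2 := mul_le_mul_of_nonneg_left h1 hC0.le
    have h5 : (b - dist z' y + S) - (n + 1) * (s * (n + 1) + C * (η + s * (n + 1)) ^ 2) ≤
        ((b - ell) - C * d ^ 2) + (S - n * (s * n + C * (η + s * n) ^ 2)) := by
      linarith
    have h6 := mul_le_mul_of_nonneg_left h5 hsh.le
    linarith

end Pool.Agent.H95.AL
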